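import Mathlib

open Filter Topology

namespace Pool.Agent.Results.MP_18b69d_an.UnionSquare

section defs

variable {X : Type} [NormedAddCommGroup X] [NormedSpace ℝ X]
  {Y : Type} [NormedAddCommGroup Y] [NormedSpace ℝ Y]

/-- `e` is a Schauder basis of `X` with biorthogonal functionals `e'`. -/
def IsSchauder (e : ℕ → X) (e' : ℕ → (X →L[ℝ] ℝ)) : Prop :=
  (∀ i j : ℕ, e' i (e j) = if i = j then (1 : ℝ) else 0) ∧
    ∀ x : X, Tendsto (fun N : ℕ => ∑ n ∈ Finset.range N, e' n x • e n) atTop (𝓝 x)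

/-- The identity factors through `T`. -/
def IdFactors (T : X →L[ℝ] X) : Prop :=
  ∃ A B : X →L[ℝ] X, A.comp (T.comp B) = ContinuousLinearMap.id ℝ X

/-- The factorization property of a basis. -/
def FP (e : ℕ → X) (e' : ℕ → (X →L[ℝ] ℝ)) : Prop :=
  ∀ T : X →L[ℝ] X, (∃ δ : ℝ, 0 < δ ∧ ∀ n : ℕ, δ ≤ |e' n (T (e n))|) → IdFactors T

/-- The factorization property of the union basis of `X × Y`. -/
def UnionFP (e : ℕ → X) (e' : ℕ → (X →L[ℝ] ℝ)) (f : ℕ → Y) (f' : ℕ → (Y →L[ℝ] ℝ)) : Prop :=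
  ∀ T : (X × Y) →L[ℝ] (X × Y),
    (∃ δ : ℝ, 0 < δ ∧ ∀ n : ℕ,
      δ ≤ |e' n ((T (e n, (0 : Y))).1)| ∧ δ ≤ |f' n ((T ((0 : X), f n)).2)|) → IdFactors T

variable (X) in
/-- `X` contains a complemented copy of its square. -/
def HasSquare : Prop :=
  ∃ (s : (X × X) →L[ℝ] X) (r : X →L[ℝ] (X × X)), r.comp s = ContinuousLinearMap.id ℝ (X × X)

/-- The operator `(x, y) ↦ (x, y - K y)`. -/
def corner (X : Type) [NormedAddCommGroup X] [NormedSpace ℝ X] (K : Y →L[ℝ] Y) :
    (X × Y) →L[ℝ] (X × Y) :=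
  (ContinuousLinearMap.id ℝ X).prodMap (ContinuousLinearMap.id ℝ Y - K)

end defs

section aux

variable {X : Type} [NormedAddCommGroup X] [NormedSpace ℝ X]
  {Y : Type} [NormedAddCommGroup Y] [NormedSpace ℝ Y]

/-- The block operator with identities on the diagonal. -/
noncomputable def blk (B : Y →L[ℝ] X) (C : X →L[ℝ] Y) : (X × Y) →L[ℝ] (X × Y) :=
  ((ContinuousLinearMap.fst ℝ X Y) + B.comp (ContinuousLinearMap.snd ℝ X Y)).prod
    (C.comp (ContinuousLinearMap.fst ℝ X Y) + ContinuousLinearMap.snd ℝ X Y)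

lemma blk_apply (B : Y →L[ℝ] X) (C : X →L[ℝ] Y) (x : X) (y : Y) :
    blk B C (x, y) = (x + B y, C x + y) := rfl

lemma corner_apply (K : Y →L[ℝ] Y) (x : X) (y : Y) : corner X K (x, y) = (x, y - K y) := rfl

lemma idFactors_of {T : X →L[ℝ] X} (A B : X →L[ℝ] X) (h : ∀ x, A (T (B x)) = x) : IdFactors T :=
  ⟨A, B, ContinuousLinearMap.ext fun x => h x⟩

/-- The block operator and the corner operator factor through each other. -/
lemma blk_iff (B : Y →L[ℝ] X) (C : X →L[ℝ] Y) :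
    IdFactors (blk B C) ↔ IdFactors (corner X (C.comp B)) := by
  constructor
  · rintro ⟨P, Q, h⟩
    refine idFactors_of (P.comp (blk 0 C)) ((blk B 0).comp Q) fun v => ?_
    have h1 : ∀ w : X × Y, blk 0 C (corner X (C.comp B) (blk B 0 w)) = blk B C w := by
      rintro ⟨x, y⟩
      rw [blk_apply, corner_apply, blk_apply, blk_apply]
      simp
    have h2 := DFunLike.congr_fun h v
    show P (blk 0 C (corner X (C.comp B) (blk B 0 (Q v)))) = v
    rw [h1]
    exact h2
  · rintro ⟨P, Q, h⟩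
    refine idFactors_of (P.comp (blk 0 (-C))) ((blk (-B) 0).comp Q) fun v => ?_
    have h1 : ∀ w : X × Y, blk 0 (-C) (blk B C (blk (-B) 0 w)) = corner X (C.comp B) w := by
      rintro ⟨x, y⟩
      rw [blk_apply, corner_apply, blk_apply, blk_apply]
      apply Prod.ext
      · simp
      · simp only [_root_.neg_apply, _root_.zero_apply, ContinuousLinearMap.comp_apply, map_add,
          map_neg, zero_add]
        abel
    have h2 := DFunLike.congr_fun h v
    show P (blk 0 (-C) (blk B C (blk (-B) 0 (Q v)))) = v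
    rw [h1]
    exact h2

/-- Any operator with large diagonal can be brought to block form with identity diagonal. -/
lemma reduce {e : ℕ → X} {e' : ℕ → (X →L[ℝ] ℝ)} {f : ℕ → Y} {f' : ℕ → (Y →L[ℝ] ℝ)}
    (he : FP e e') (hf : FP f f') (h : ∀ (B : Y →L[ℝ] X) (C : X →L[ℝ] Y), IdFactors (blk B C)) :
    UnionFP e e' f f' := by
  rintro T ⟨δ, hδ, hT⟩
  obtain ⟨S₁, R₁, h₁⟩ := he ((ContinuousLinearMap.fst ℝ X Y).comp
    (T.comp (ContinuousLinearMap.inl ℝ X Y))) ⟨δ, hδ, fun n => (hT n).1⟩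
  obtain ⟨S₂, R₂, h₂⟩ := hf ((ContinuousLinearMap.snd ℝ X Y).comp
    (T.comp (ContinuousLinearMap.inr ℝ X Y))) ⟨δ, hδ, fun n => (hT n).2⟩
  set B : Y →L[ℝ] X := S₁.comp ((ContinuousLinearMap.fst ℝ X Y).comp
    (T.comp ((ContinuousLinearMap.inr ℝ X Y).comp R₂))) with hB
  set C : X →L[ℝ] Y := S₂.comp ((ContinuousLinearMap.snd ℝ X Y).comp
    (T.comp ((ContinuousLinearMap.inl ℝ X Y).comp R₁))) with hC
  obtain ⟨P, Q, hPQ⟩ := h B C
  refine idFactors_of (P.comp (S₁.prodMap S₂)) ((R₁.prodMap R₂).comp Q) fun v => ?_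
  have h3 : ∀ w : X × Y, (S₁.prodMap S₂) (T ((R₁.prodMap R₂) w)) = blk B C w := by
    rintro ⟨x, y⟩
    have h4 : (R₁.prodMap R₂) (x, y) = (R₁ x, 0) + (0, R₂ y) := by simp
    have h5 : S₁ (T (R₁ x, 0)).1 = x := DFunLike.congr_fun h₁ x
    have h6 : S₂ (T (0, R₂ y)).2 = y := DFunLike.congr_fun h₂ y
    have h7 : S₁ (T (0, R₂ y)).1 = B y := rfl
    have h8 : S₂ (T (R₁ x, 0)).2 = C x := rfl
    rw [h4, map_add, blk_apply, ← h7, ← h8]
    apply Prod.ext
    · show S₁ ((T (R₁ x, 0)).1 + (T (0, R₂ y)).1) = x + S₁ (T (0, R₂ y)).1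
      rw [map_add, h5]
    · show S₂ ((T (R₁ x, 0)).2 + (T (0, R₂ y)).2) = S₂ (T (R₁ x, 0)).2 + y
      rw [map_add, h6]
  have h9 := DFunLike.congr_fun hPQ v
  show P ((S₁.prodMap S₂) (T ((R₁.prodMap R₂) (Q v)))) = v
  rw [h3]
  exact h9

/-- The block operators have large diagonal. -/
lemma blk_of_union {e : ℕ → X} {e' : ℕ → (X →L[ℝ] ℝ)} {f : ℕ → Y} {f' : ℕ → (Y →L[ℝ] ℝ)}
    (he : IsSchauder e e') (hf : IsSchauder f f') (h : UnionFP e e' f f')
    (B : Y →L[ℝ] X) (C : X →L[ℝ] Y) : IdFactors (blk B C) := by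
  refine h _ ⟨1, one_pos, fun n => ⟨?_, ?_⟩⟩
  · rw [blk_apply, map_zero, add_zero]
    show 1 ≤ |e' n (e n)|
    rw [he.1 n n, if_pos rfl, abs_one]
  · rw [blk_apply, map_zero, zero_add, zero_add]
    show 1 ≤ |f' n (f n)|
    rw [hf.1 n n, if_pos rfl, abs_one]

/-- If one space contains its square complementably, all block operators are fine. -/
lemma blk_of_square (h : HasSquare X ∨ HasSquare Y) (B : Y →L[ℝ] X) (C : X →L[ℝ] Y) :
    IdFactors (blk B C) := by
  rcases h with ⟨s, r, hr⟩ | ⟨s, r, hr⟩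
  · have hr' : ∀ a b, r (s (a, b)) = (a, b) := fun a b => DFunLike.congr_fun hr (a, b)
    refine idFactors_of
      (((ContinuousLinearMap.fst ℝ X X).comp (r.comp (ContinuousLinearMap.fst ℝ X Y))).prod
        (C.comp ((ContinuousLinearMap.snd ℝ X X).comp (r.comp (ContinuousLinearMap.fst ℝ X Y))) +
          ContinuousLinearMap.snd ℝ X Y - C.comp (ContinuousLinearMap.fst ℝ X Y)))
      ((s.comp ((ContinuousLinearMap.fst ℝ X Y).prod
        (B.comp (ContinuousLinearMap.snd ℝ X Y))) - B.comp (ContinuousLinearMap.snd ℝ X Y)).prod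
        (ContinuousLinearMap.snd ℝ X Y)) ?_
    rintro ⟨x, y⟩
    have h1 : ((s.comp ((ContinuousLinearMap.fst ℝ X Y).prod
        (B.comp (ContinuousLinearMap.snd ℝ X Y))) - B.comp (ContinuousLinearMap.snd ℝ X Y)).prod
        (ContinuousLinearMap.snd ℝ X Y)) (x, y) = (s (x, B y) - B y, y) := rfl
    rw [h1, blk_apply, sub_add_cancel]
    have h2 : (((ContinuousLinearMap.fst ℝ X X).comp (r.comp (ContinuousLinearMap.fst ℝ X Y))).prod
        (C.comp ((ContinuousLinearMap.snd ℝ X X).comp (r.comp (ContinuousLinearMap.fst ℝ X Y))) +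
          ContinuousLinearMap.snd ℝ X Y - C.comp (ContinuousLinearMap.fst ℝ X Y)))
          (s (x, B y), C (s (x, B y) - B y) + y) =
        ((r (s (x, B y))).1, C (r (s (x, B y))).2 + (C (s (x, B y) - B y) + y) -
          C (s (x, B y))) := rfl
    rw [h2, hr', map_sub]
    apply Prod.ext
    · rfl
    · show C (B y) + (C (s (x, B y)) - C (B y) + y) - C (s (x, B y)) = y
      abel
  · have hr' : ∀ a b, r (s (a, b)) = (a, b) := fun a b => DFunLike.congr_fun hr (a, b)
    refine idFactors_of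
      ((B.comp ((ContinuousLinearMap.fst ℝ Y Y).comp (r.comp (ContinuousLinearMap.snd ℝ X Y))) +
          ContinuousLinearMap.fst ℝ X Y - B.comp (ContinuousLinearMap.snd ℝ X Y)).prod
        ((ContinuousLinearMap.snd ℝ Y Y).comp (r.comp (ContinuousLinearMap.snd ℝ X Y))))
      ((ContinuousLinearMap.fst ℝ X Y).prod (s.comp ((C.comp (ContinuousLinearMap.fst ℝ X Y)).prod
        (ContinuousLinearMap.snd ℝ X Y)) - C.comp (ContinuousLinearMap.fst ℝ X Y))) ?_
    rintro ⟨x, y⟩
    have h1 : ((ContinuousLinearMap.fst ℝ X Y).prod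
        (s.comp ((C.comp (ContinuousLinearMap.fst ℝ X Y)).prod
        (ContinuousLinearMap.snd ℝ X Y)) - C.comp (ContinuousLinearMap.fst ℝ X Y))) (x, y) =
        (x, s (C x, y) - C x) := rfl
    rw [h1, blk_apply, add_sub_cancel]
    have h2 : ((B.comp ((ContinuousLinearMap.fst ℝ Y Y).comp
          (r.comp (ContinuousLinearMap.snd ℝ X Y))) +
          ContinuousLinearMap.fst ℝ X Y - B.comp (ContinuousLinearMap.snd ℝ X Y)).prod
        ((ContinuousLinearMap.snd ℝ Y Y).comp (r.comp (ContinuousLinearMap.snd ℝ X Y))))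
          (x + B (s (C x, y) - C x), s (C x, y)) =
        (B (r (s (C x, y))).1 + (x + B (s (C x, y) - C x)) - B (s (C x, y)),
          (r (s (C x, y))).2) := rfl
    rw [h2, hr', map_sub]
    apply Prod.ext
    · show B (C x) + (x + (B (s (C x, y)) - B (C x))) - B (s (C x, y)) = x
      abel
    · rfl

/-- If the swap-like block operator factors the identity, the square is complemented. -/
lemma square_of_blk (h : IdFactors (blk (ContinuousLinearMap.id ℝ X) (ContinuousLinearMap.id ℝ X))) :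
    HasSquare X := by
  obtain ⟨P, Q, hPQ⟩ := h
  refine ⟨((ContinuousLinearMap.fst ℝ X X) + (ContinuousLinearMap.snd ℝ X X)).comp Q,
    P.comp ((ContinuousLinearMap.id ℝ X).prod (ContinuousLinearMap.id ℝ X)), ?_⟩
  refine ContinuousLinearMap.ext fun v => ?_
  have h1 : blk (ContinuousLinearMap.id ℝ X) (ContinuousLinearMap.id ℝ X) (Q v) =
      ((Q v).1 + (Q v).2, (Q v).1 + (Q v).2) := rfl
  have h2 : P (blk (ContinuousLinearMap.id ℝ X) (ContinuousLinearMap.id ℝ X) (Q v)) = v :=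
    DFunLike.congr_fun hPQ v
  rw [h1] at h2
  exact h2

/-- For a basis with the factorization property, finitely many diagonal entries do not matter. -/
lemma tail {f : ℕ → Y} {f' : ℕ → (Y →L[ℝ] ℝ)} (hb : IsSchauder f f') (hf : FP f f')
    (A : Y →L[ℝ] Y) {δ : ℝ} (hδ : 0 < δ) {N : ℕ} (hA : ∀ n ≥ N, δ ≤ |f' n (A (f n))|) :
    IdFactors A := by
  set V : Y →L[ℝ] Y := ContinuousLinearMap.id ℝ Y -
    ∑ j ∈ Finset.range N, (f' j).smulRight (f j) +
    ∑ j ∈ Finset.range N, (f' (N + j)).smulRight (f j) with hV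
  set W : Y →L[ℝ] Y := ContinuousLinearMap.id ℝ Y -
    ∑ j ∈ Finset.range N, (f' j).smulRight (f j) +
    ∑ j ∈ Finset.range N, (f' j).smulRight (f (N + j)) with hW
  have hVa : ∀ y, V y = y - ∑ j ∈ Finset.range N, f' j y • f j +
      ∑ j ∈ Finset.range N, f' (N + j) y • f j := by
    intro y
    simp [hV]
  have hWa : ∀ y, W y = y - ∑ j ∈ Finset.range N, f' j y • f j +
      ∑ j ∈ Finset.range N, f' j y • f (N + j) := by
    intro y
    simp [hW]
  have hs : ∀ (n : ℕ) (c : ℕ → ℝ), f' n (∑ j ∈ Finset.range N, c j • f j) =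
      if n < N then c n else 0 := by
    intro n c
    rw [map_sum]
    simp only [map_smul, smul_eq_mul, hb.1, mul_ite, mul_one, mul_zero, Finset.sum_ite_eq,
      Finset.mem_range]
  have hVn : ∀ n y, f' n (V y) = if n < N then f' (N + n) y else f' n y := by
    intro n y
    rw [hVa, map_add, map_sub, hs, hs]
    split_ifs <;> ring
  have hWn : ∀ n, W (f n) = if n < N then f (N + n) else f n := by
    intro n
    rw [hWa]
    simp only [hb.1, ite_smul, one_smul, zero_smul, Finset.sum_ite_eq', Finset.mem_range]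
    split_ifs
    · rw [sub_self, zero_add]
    · rw [sub_zero, add_zero]
  obtain ⟨P, Q, hPQ⟩ := hf (V.comp (A.comp W)) ⟨δ, hδ, fun n => by
    show δ ≤ |f' n (V (A (W (f n))))|
    rw [hVn, hWn]
    split_ifs with h
    · exact hA _ (Nat.le_add_right _ _)
    · exact hA _ (not_lt.1 h)⟩
  exact ⟨P.comp V, W.comp Q, hPQ⟩

/-- If the diagonals of all products of off-diagonal blocks tend to zero, all is fine. -/
lemma union_of_tendsto {e : ℕ → X} {e' : ℕ → (X →L[ℝ] ℝ)} {f : ℕ → Y} {f' : ℕ → (Y →L[ℝ] ℝ)}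
    (he : FP e e') (hb : IsSchauder f f') (hf : FP f f')
    (h : ∀ (B : Y →L[ℝ] X) (C : X →L[ℝ] Y), Tendsto (fun n => f' n (C (B (f n)))) atTop (𝓝 0)) :
    UnionFP e e' f f' := by
  refine reduce he hf fun B C => (blk_iff B C).2 ?_
  have h1 := (h B C).eventually (Metric.ball_mem_nhds (0 : ℝ) (show (0 : ℝ) < 1 / 2 by norm_num))
  obtain ⟨N, hN⟩ := eventually_atTop.1 h1
  obtain ⟨P, Q, hPQ⟩ := tail hb hf (ContinuousLinearMap.id ℝ Y - C.comp B)
    (δ := 1 / 2) (by norm_num) (N := N) (fun n hn => by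
      have h2 := hN n hn
      rw [Real.dist_eq, sub_zero] at h2
      show 1 / 2 ≤ |f' n (f n - C (B (f n)))|
      rw [map_sub, hb.1, if_pos rfl]
      have h3 := abs_sub_abs_le_abs_sub (1 : ℝ) (f' n (C (B (f n))))
      rw [abs_one] at h3
      linarith)
  refine idFactors_of ((ContinuousLinearMap.id ℝ X).prodMap P)
    ((ContinuousLinearMap.id ℝ X).prodMap Q) ?_
  rintro ⟨x, y⟩
  apply Prod.ext
  · rfl
  · exact DFunLike.congr_fun hPQ y

end aux

/-- The union basis has the factorization property as soon as one of the two spaces contains a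
complemented copy of its square, and for two bases of one and the same space this sufficient
condition is also necessary. -/
theorem result :
    (∀ (X Y : Type) [NormedAddCommGroup X] [NormedSpace ℝ X] [CompleteSpace X]
      [NormedAddCommGroup Y] [NormedSpace ℝ Y] [CompleteSpace Y]
      (e : ℕ → X) (e' : ℕ → (X →L[ℝ] ℝ)) (f : ℕ → Y) (f' : ℕ → (Y →L[ℝ] ℝ)),
      IsSchauder e e' → IsSchauder f f' → FP e e' → FP f f' →
        (HasSquare X ∨ HasSquare Y) → UnionFP e e' f f') ∧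
    (∀ (X : Type) [NormedAddCommGroup X] [NormedSpace ℝ X] [CompleteSpace X]
      (e : ℕ → X) (e' : ℕ → (X →L[ℝ] ℝ)) (f : ℕ → X) (f' : ℕ → (X →L[ℝ] ℝ)),
      IsSchauder e e' → IsSchauder f f' → FP e e' → FP f f' →
        (UnionFP e e' f f' ↔ HasSquare X)) := by
  refine ⟨?_, ?_⟩
  · intro X Y _ _ _ _ _ _ e e' f f' he hf hfe hff h
    exact reduce hfe hff (blk_of_square h)
  · intro X _ _ _ e e' f f' he hf hfe hff
    exact ⟨fun h => square_of_blk (blk_of_union he hf h _ _),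
      fun h => reduce hfe hff (blk_of_square (Or.inl h))⟩

end Pool.Agent.Results.MP_18b69d_an.UnionSquare
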